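import Pool.Agent.helper91.SI.Spec2

/-!
Row CIR of project SI (MP_ee5996_co): cycles of length 7 in the i-graph.
-/

set_option autoImplicit false

namespace Pool.Agent.helper91.SI

open Pool.Agent.helper20.IG (IsIndepDom IsISet iGraph)

theorem CIR (hIAD : IAD_stmt) (hBAL : BAL_stmt) (hCY7 : CY7_stmt) (hDSC : DSC_stmt) :
    CIR_stmt := by
  intro V _ G hT h4 h5 h6 S hS
  have h1 : ∀ t, ∃ s v, Slide G (S t).1 s v ∧ (S (t + 1)).1 = insert v ((S t).1.erase s) :=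
    fun t => (hIAD V G (S t) (S (t + 1))).1 (hS.2 t)
  choose s v hsl hst using h1
  obtain ⟨τ, hτ⟩ := hBAL V (fun t => (S t).1) s v (fun t => (hsl t).2.1)
    (fun t => (hsl t).2.2.1) hst
  obtain ⟨z, κ, hz, hκ⟩ := hCY7 V G s τ hT h5
    (fun t => by rw [← hτ t]; exact (hsl t).2.2.2.1)
  refine hDSC V G (fun t => (S t).1) z κ hT h4 h5 h6 (fun t => (S t).2.1) hz (fun t => ?_)
  have e1 : z (κ t) = s t := (hκ t).1.symm
  have e2 : z (κ t + 1) = v t := by rw [hτ t]; exact (hκ t).2.symm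
  rw [e1, e2]
  exact ⟨(hsl t).2.1, (hsl t).2.2.1, hst t⟩

end Pool.Agent.helper91.SI
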